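import Pool.Agent.W95.EQ.Stm
import Pool.Agent.W655.BK.One

/-!
# Project EQM: contraction at totally ramified points (EQM-RAM)
-/

open Polynomial Topology Filter MeasureTheory

namespace Pool.Agent.W73.EQ

open Pool.Agent.W95.BK Pool.Agent.W95.EQ

universe u

section
variable {K : Type u} [NontriviallyNormedField K]

/-- the polynomial whose zeros are the preimages of `pt o` -/
noncomputable def G (R : RMap K) (o : Option K) : K[X] := o.elim R.Q (fun c => R.P - C c * R.Q)

/-- the size of a classical point -/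
noncomputable def mo (o : Option K) : ℝ := o.elim 1 (fun c => max 1 ‖c‖)

lemma one_le_mo (o : Option K) : 1 ≤ mo o := by
  cases o with
  | none => exact le_refl _
  | some c => exact le_max_left _ _

lemma hom_one_sub (c : K) (a b : K[X]) : hom 1 (X - C c) a b = a - C c * b := by
  unfold hom
  rw [Finset.sum_range_succ, Finset.sum_range_succ, Finset.sum_range_zero]
  simp [coeff_X, coeff_C]
  ring

lemma push_def (R : RMap K) (x : BA K) (hx : x R.Q ≠ 0) (h : K[X]) :
    (push R x hx) h = x (hom h.natDegree h R.P R.Q) / x R.Q ^ h.natDegree := rfl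

set_option maxHeartbeats 400000 in
lemma push_sub (R : RMap K) (x : BA K) (hx : x R.Q ≠ 0) (c : K) :
    (push R x hx) (X - C c) = x (R.P - C c * R.Q) / x R.Q := by
  rw [push_def, natDegree_X_sub_C, hom_one_sub, pow_one]

set_option maxHeartbeats 400000 in
lemma push_X (R : RMap K) (x : BA K) (hx : x R.Q ≠ 0) :
    (push R x hx) X = x R.P / x R.Q := by
  have := push_sub R x hx 0
  simpa using this

lemma act_coe_zero [IsUltrametricDist K] (R : RMap K) (y : BA K) (hQ : y R.Q = 0) :
    R.act (y : P1B K) = OnePoint.infty := by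
  have hn : ¬ (y R.Q ≠ 0) := by simpa using hQ
  exact dif_neg hn

lemma act_coe [IsUltrametricDist K] (R : RMap K) (y : BA K) (hQ : y R.Q ≠ 0) :
    R.act (y : P1B K) = ((push R y hQ : BA K) : P1B K) :=
  dif_pos hQ

lemma act_inf_zero [IsUltrametricDist K] (R : RMap K) (hQ : R.Q.coeff R.d = 0) :
    R.act (OnePoint.infty : P1B K) = OnePoint.infty :=
  if_pos hQ

lemma act_inf [IsUltrametricDist K] (R : RMap K) (hQ : R.Q.coeff R.d ≠ 0) :
    R.act (OnePoint.infty : P1B K) =
      ((cl (R.P.coeff R.d / R.Q.coeff R.d) : BA K) : P1B K) :=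
  if_neg hQ

set_option maxHeartbeats 400000 in
lemma nu_act [IsUltrametricDist K] (R : RMap K) (o : Option K) (y : BA K)
    (hF : 0 < max (y R.P) (y R.Q)) :
    nu o (R.act (y : P1B K)) = y (G R o) / (max (y R.P) (y R.Q) * mo o) := by
  classical
  by_cases hQ : y R.Q = 0
  · rw [act_coe_zero R y hQ]
    cases o with
    | none =>
      show (0 : ℝ) = y R.Q / _
      rw [hQ, zero_div]
    | some c =>
      show 1 / max 1 ‖c‖ = y (R.P - C c * R.Q) / (max (y R.P) (y R.Q) * max 1 ‖c‖)
      have h1 : y (R.P - C c * R.Q) = y R.P := by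
        refine le_antisymm ?_ ?_
        · refine (Pool.Agent.W655.BK.BAsub y R.P (C c * R.Q)).trans (max_le (le_refl _) ?_)
          rw [y.map_mul', hQ, mul_zero]
          exact y.nonneg' _
        · have h2 := y.map_add' (R.P - C c * R.Q) (C c * R.Q)
          rw [sub_add_cancel, y.map_mul' (C c) R.Q, hQ, mul_zero] at h2
          exact h2.trans (max_le (le_refl _) (y.nonneg' _))
      have h3 : max (y R.P) (y R.Q) = y R.P := by
        rw [hQ]
        exact max_eq_left (y.nonneg' _)
      rw [h3] at hF ⊢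
      rw [h1]
      have h4 : (0 : ℝ) < max 1 ‖c‖ := lt_of_lt_of_le one_pos (le_max_left _ _)
      field_simp
  · rw [act_coe R y hQ]
    have hQ0 : 0 < y R.Q := lt_of_le_of_ne (y.nonneg' _) (Ne.symm hQ)
    have h1 : max 1 ((push R y hQ) X) = max (y R.P) (y R.Q) / y R.Q := by
      rw [push_X, max_comm, ← max_div_div_right hQ0.le, div_self hQ]
    cases o with
    | none =>
      show 1 / max 1 ((push R y hQ) X) = y R.Q / (max (y R.P) (y R.Q) * 1)
      rw [h1, mul_one, one_div_div]
    | some c =>
      show (push R y hQ) (X - C c) / (max 1 ((push R y hQ) X) * max 1 ‖c‖) =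
        y (R.P - C c * R.Q) / (max (y R.P) (y R.Q) * max 1 ‖c‖)
      have h4 : (0 : ℝ) < max 1 ‖c‖ := lt_of_lt_of_le one_pos (le_max_left _ _)
      rw [h1, push_sub]
      field_simp

lemma nu_le_one [IsUltrametricDist K] (o : Option K) (x : P1B K) : nu o x ≤ 1 := by
  have hm : ∀ t : ℝ, (0 : ℝ) < max 1 t := fun t => lt_of_lt_of_le one_pos (le_max_left _ _)
  have h1 : ∀ t : ℝ, (1 : ℝ) ≤ max 1 t := fun t => le_max_left _ _
  cases o with
  | none =>
    induction x using OnePoint.rec with
    | infty => exact zero_le_one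
    | coe y =>
      show 1 / max 1 (y X) ≤ 1
      rw [div_le_one (hm _)]
      exact h1 _
  | some c =>
    induction x using OnePoint.rec with
    | infty =>
      show 1 / max 1 ‖c‖ ≤ 1
      rw [div_le_one (hm _)]
      exact h1 _
    | coe y =>
      show y (X - C c) / (max 1 (y X) * max 1 ‖c‖) ≤ 1
      rw [div_le_one (mul_pos (hm _) (hm _))]
      have h2 := Pool.Agent.W655.BK.BAsub y X (C c)
      rw [y.map_C'] at h2
      refine h2.trans (max_le ?_ ?_)
      · calc y X ≤ max 1 (y X) * 1 := by rw [mul_one]; exact le_max_right _ _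
          _ ≤ max 1 (y X) * max 1 ‖c‖ := mul_le_mul_of_nonneg_left (h1 _) (hm _).le
      · calc ‖c‖ ≤ 1 * max 1 ‖c‖ := by rw [one_mul]; exact le_max_right _ _
          _ ≤ max 1 (y X) * max 1 ‖c‖ := mul_le_mul_of_nonneg_right (h1 _) (hm _).le

lemma nu_pt [IsUltrametricDist K] (o : Option K) : nu o (pt o) = 0 := by
  cases o with
  | none => rfl
  | some c =>
    show ‖(X - C c).eval c‖ / _ = 0
    simp

lemma cl_inj [IsUltrametricDist K] {a b : K} (h : (cl a : BA K) = cl b) : a = b := by
  have h1 : (cl a : BA K) (X - C b) = (cl b : BA K) (X - C b) := by rw [h]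
  have h2 : ‖(X - C b).eval a‖ = ‖(X - C b).eval b‖ := h1
  rw [eval_sub, eval_X, eval_C, eval_sub, eval_X, eval_C, sub_self, norm_zero, norm_eq_zero,
    sub_eq_zero] at h2
  exact h2

set_option maxHeartbeats 400000 in
/-- the contraction estimate from the shape of `G R o'` -/
lemma contr [IsUltrametricDist K] (R : RMap K) (o o' : Option K) (ho : R.act (pt o) = pt o')
    (hG : ∃ k : K, G R o' = o.elim (C k) (fun w => C k * (X - C w) ^ R.d)) :
    ∃ B : ℝ, 0 ≤ B ∧ ∀ x : P1B K, nu o' (R.act x) ≤ B * nu o x ^ R.d := by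
  obtain ⟨k, hk⟩ := hG
  obtain ⟨D, hD, hlow⟩ := Pool.Agent.W655.BK.low R
  have hmo := one_le_mo o
  have hmo' := one_le_mo o'
  have hd : R.d ≠ 0 := by have := R.pos; omega
  refine ⟨‖k‖ * D * mo o ^ R.d + mo o ^ R.d, by positivity, fun x => ?_⟩
  induction x using OnePoint.rec with
  | infty =>
    cases o with
    | none =>
      have e : (OnePoint.infty : P1B K) = pt none := rfl
      rw [e, ho, nu_pt, nu_pt, zero_pow hd, mul_zero]
    | some w =>
      have e : nu (some w) (OnePoint.infty : P1B K) = 1 / mo (some w) := rfl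
      rw [e, div_pow, one_pow]
      refine (nu_le_one _ _).trans ?_
      have h1 : 0 < mo (some w) ^ R.d := by positivity
      have h2 : (‖k‖ * D * mo (some w) ^ R.d + mo (some w) ^ R.d) * (1 / mo (some w) ^ R.d) =
          ‖k‖ * D + 1 := by
        field_simp
      rw [h2]
      have : 0 ≤ ‖k‖ * D := by positivity
      linarith
  | coe y =>
    have hm1 : (1 : ℝ) ≤ max 1 (y X) := le_max_left _ _
    have hp : 0 < max 1 (y X) ^ R.d := by positivity
    have hF : 0 < max (y R.P) (y R.Q) := by
      have h1 := hlow y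
      by_contra hc
      push Not at hc
      have : D * max (y R.P) (y R.Q) ≤ 0 := mul_nonpos_of_nonneg_of_nonpos hD.le hc
      linarith
    rw [nu_act R o' y hF]
    have h1 : y (G R o') / (max (y R.P) (y R.Q) * mo o') ≤ y (G R o') * D / max 1 (y X) ^ R.d := by
      rw [div_le_div_iff₀ (by positivity) hp]
      have h2 := hlow y
      have h3 := y.nonneg' (G R o')
      calc y (G R o') * max 1 (y X) ^ R.d ≤ y (G R o') * (D * max (y R.P) (y R.Q)) := by gcongr
        _ = y (G R o') * D * (max (y R.P) (y R.Q) * 1) := by ring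
        _ ≤ y (G R o') * D * (max (y R.P) (y R.Q) * mo o') := by gcongr
    refine h1.trans ?_
    rw [hk]
    cases o with
    | none =>
      have e : nu none (y : P1B K) = 1 / max 1 (y X) := rfl
      rw [e, div_pow, one_pow]
      show y (C k) * D / max 1 (y X) ^ R.d ≤ _
      rw [y.map_C']
      have e2 : mo (none : Option K) = 1 := rfl
      rw [e2, one_pow, mul_one, mul_one_div]
      gcongr
      linarith
    | some w =>
      have e : nu (some w) (y : P1B K) = y (X - C w) / (max 1 (y X) * mo (some w)) := rfl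
      rw [e, div_pow, mul_pow]
      show y (C k * (X - C w) ^ R.d) * D / max 1 (y X) ^ R.d ≤ _
      rw [y.map_mul', y.map_C', BA.map_pow]
      have h5 : 0 < mo (some w) ^ R.d := by positivity
      have h6 : (‖k‖ * D * mo (some w) ^ R.d + mo (some w) ^ R.d) *
          (y (X - C w) ^ R.d / (max 1 (y X) ^ R.d * mo (some w) ^ R.d)) =
          (‖k‖ * D + 1) * y (X - C w) ^ R.d / max 1 (y X) ^ R.d := by
        field_simp
      rw [h6]
      have h7 := y.nonneg' (X - C w)
      have h8 : 0 ≤ y (X - C w) ^ R.d := pow_nonneg h7 _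
      refine div_le_div_of_nonneg_right ?_ hp.le
      nlinarith [norm_nonneg k]

lemma ld [IsUltrametricDist K] [IsAlgClosed K] (hU : S_LDU.{u}) (R : RMap K) (x : P1B K) (m : ℕ)
    (h : IsLocalDeg R x m) : localDeg R x = m := by
  classical
  have hex : ∃ m, IsLocalDeg R x m := ⟨m, h⟩
  unfold localDeg
  rw [dif_pos hex]
  exact hU K R x _ _ (Nat.find_spec hex) h

/-- polynomials with a root of multiplicity `d`, the degree bound -/
lemma shape (F : K[X]) (d : ℕ) (hd : 1 ≤ d) (hF : F.natDegree ≤ d) (w : K)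
    (h : F.rootMultiplicity w = d) : ∃ k : K, F = C k * (X - C w) ^ d := by
  have hF0 : F ≠ 0 := by
    rintro rfl
    rw [rootMultiplicity_zero] at h
    omega
  have hdvd : (X - C w) ^ d ∣ F := by
    rw [← h]
    exact pow_rootMultiplicity_dvd F w
  obtain ⟨g, hg⟩ := hdvd
  have hg0 : g ≠ 0 := by
    rintro rfl
    exact hF0 (by rw [hg, mul_zero])
  have hdeg : F.natDegree = d + g.natDegree := by
    rw [hg, (monic_X_sub_C w).pow d |>.natDegree_mul' hg0, natDegree_pow, natDegree_X_sub_C,
      mul_one]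
  have hgd : g.natDegree = 0 := by omega
  refine ⟨g.coeff 0, ?_⟩
  rw [← eq_C_of_natDegree_eq_zero hgd, mul_comm]
  exact hg

set_option maxHeartbeats 400000 in
theorem main : S_LDCF.{u} → S_LDCP.{u} → S_LDCI.{u} → S_LDU.{u} → S_ACT.{u} → S_RAM.{u} := by
  intro hF hP hI hU hA K _ _ _ R o o' ho hdeg
  refine contr R o o' ho ?_
  have hd := R.pos
  have hPd : R.P.natDegree ≤ R.d := by rw [← R.deg_eq]; exact le_max_left _ _
  have hQd : R.Q.natDegree ≤ R.d := by rw [← R.deg_eq]; exact le_max_right _ _
  have hPQ : ∀ c : K, (R.P - C c * R.Q).natDegree ≤ R.d := by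
    intro c
    refine (natDegree_sub_le _ _).trans (max_le hPd ?_)
    exact (natDegree_C_mul_le _ _).trans hQd
  have hnone : pt o' = (OnePoint.infty : P1B K) → o' = none := by
    intro h
    cases o' with
    | none => rfl
    | some c => exact absurd h (OnePoint.coe_ne_infty _)
  have hsome : ∀ c : K, pt o' = ((cl c : BA K) : P1B K) → o' = some c := by
    intro c h
    cases o' with
    | none => exact absurd h (OnePoint.infty_ne_coe _)
    | some e =>
      have h1 : (cl e : BA K) = cl c := OnePoint.coe_injective h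
      rw [cl_inj h1]
  cases o with
  | some w =>
    have e0 : pt (some w) = ((cl w : BA K) : P1B K) := rfl
    rw [e0] at ho hdeg
    by_cases hQ : R.Q.eval w = 0
    · rw [(hA K R).2.2.1 w hQ] at ho
      have ho' := hnone ho.symm
      rw [ld hU R _ _ (hP K R w hQ)] at hdeg
      obtain ⟨k, hk⟩ := shape R.Q R.d hd hQd w hdeg
      refine ⟨k, ?_⟩
      rw [ho']
      exact hk
    · rw [(hA K R).2.1 w hQ] at ho
      have ho' := hsome _ ho.symm
      rw [ld hU R _ _ (hF K R w hQ)] at hdeg
      obtain ⟨k, hk⟩ := shape _ R.d hd (hPQ _) w hdeg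
      refine ⟨k, ?_⟩
      rw [ho']
      exact hk
  | none =>
    have e0 : pt (none : Option K) = (OnePoint.infty : P1B K) := rfl
    rw [e0] at ho hdeg
    by_cases hQ : R.Q.coeff R.d = 0
    · rw [act_inf_zero R hQ] at ho
      have ho' := hnone ho.symm
      rw [ld hU R _ _ ((hI K R).2 hQ)] at hdeg
      have h0 : R.Q.natDegree = 0 := by omega
      refine ⟨R.Q.coeff 0, ?_⟩
      rw [ho']
      exact eq_C_of_natDegree_eq_zero h0
    · rw [act_inf R hQ] at ho
      have ho' := hsome _ ho.symm
      rw [ld hU R _ _ ((hI K R).1 hQ)] at hdeg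
      have h1 := hPQ (R.P.coeff R.d / R.Q.coeff R.d)
      have h0 : (R.P - C (R.P.coeff R.d / R.Q.coeff R.d) * R.Q).natDegree = 0 := by omega
      refine ⟨(R.P - C (R.P.coeff R.d / R.Q.coeff R.d) * R.Q).coeff 0, ?_⟩
      rw [ho']
      exact eq_C_of_natDegree_eq_zero h0

end

end Pool.Agent.W73.EQ
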